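import Mathlib

set_option autoImplicit false

namespace Pool.Agent.Results.MP_1a49c3_al.SixClosuresFalse

open Matrix

/-- `3 × 3` matrices over `K`. -/
abbrev M3 (K : Type) : Type := Matrix (Fin 3) (Fin 3) K

/-- A noncommutative polynomial is homogeneous of degree `d` if it is a linear combination of
words of length `d` in the variables. -/
def IsHomog {K : Type} [Field K] {m : ℕ} (d : ℕ) (p : FreeAlgebra K (Fin m)) : Prop :=
  p ∈ Submodule.span K
    {w | ∃ l : List (Fin m), l.length = d ∧ w = (l.map (FreeAlgebra.ι K)).prod}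

/-- The image of `p` on `3 × 3` matrices. -/
def image {K : Type} [Field K] {m : ℕ} (p : FreeAlgebra K (Fin m)) : Set (M3 K) :=
  {B | ∃ A : Fin m → M3 K, FreeAlgebra.lift K A p = B}

/-- Zariski closure in the affine space of `3 × 3` matrices: the common zeros of all
polynomials in the nine entries that vanish on `S`. -/
def zariskiClosure {K : Type} [Field K] (S : Set (M3 K)) : Set (M3 K) :=
  {B | ∀ f : MvPolynomial (Fin 3 × Fin 3) K,
    (∀ A ∈ S, MvPolynomial.eval (fun ij => A ij.1 ij.2) f = 0) →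
      MvPolynomial.eval (fun ij => B ij.1 ij.2) f = 0}

/-- The scalar matrices. -/
def scalars (K : Type) [Field K] : Set (M3 K) := {B | ∃ c : K, B = c • (1 : M3 K)}

/-- The matrices of trace zero. -/
def sl3 (K : Type) [Field K] : Set (M3 K) := {B | B.trace = 0}

/-- The `3`-scalar matrices: those with characteristic polynomial `X ^ 3 - c`. -/
def V3 (K : Type) [Field K] : Set (M3 K) :=
  {B | ∃ c : K, B.charpoly = Polynomial.X ^ 3 - Polynomial.C c}

/-- Sums of a `3`-scalar matrix and a scalar matrix. -/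
def V3K (K : Type) [Field K] : Set (M3 K) :=
  {B | ∃ A ∈ V3 K, ∃ c : K, B = A + c • (1 : M3 K)}


/-- The second coefficient of the characteristic polynomial (sum of principal `2 × 2` minors). -/
def c2 {K : Type} [Field K] (B : M3 K) : K :=
  B 0 0 * B 1 1 - B 0 1 * B 1 0 + B 0 0 * B 2 2 - B 0 2 * B 2 0 + B 1 1 * B 2 2 - B 1 2 * B 2 1

theorem charpoly_eq {K : Type} [Field K] (B : M3 K) :
    B.charpoly = Polynomial.X ^ 3 - Polynomial.C B.trace * Polynomial.X ^ 2
      + Polynomial.C (c2 B) * Polynomial.X - Polynomial.C B.det := by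
  rw [Matrix.charpoly, Matrix.charmatrix, Matrix.det_fin_three, Matrix.det_fin_three,
    Matrix.trace_fin_three, c2]
  simp [Matrix.scalar_apply, Matrix.diagonal]
  ring

theorem V3_trace {K : Type} [Field K] {B : M3 K} (h : B ∈ V3 K) : B.trace = 0 ∧ c2 B = 0 := by
  obtain ⟨c, hc⟩ := h
  rw [charpoly_eq] at hc
  constructor
  · have := congrArg (fun q => Polynomial.coeff q 2) hc
    simp [Polynomial.coeff_X_pow] at this
    exact this
  · have := congrArg (fun q => Polynomial.coeff q 1) hc
    simp [Polynomial.coeff_C, Polynomial.coeff_X_pow] at this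
    exact this

/-- trace as a polynomial in the entries -/
noncomputable def trP (K : Type) [Field K] : MvPolynomial (Fin 3 × Fin 3) K :=
  MvPolynomial.X (0, 0) + MvPolynomial.X (1, 1) + MvPolynomial.X (2, 2)

noncomputable def c2P (K : Type) [Field K] : MvPolynomial (Fin 3 × Fin 3) K :=
  MvPolynomial.X (0, 0) * MvPolynomial.X (1, 1) - MvPolynomial.X (0, 1) * MvPolynomial.X (1, 0)
    + MvPolynomial.X (0, 0) * MvPolynomial.X (2, 2) - MvPolynomial.X (0, 2) * MvPolynomial.X (2, 0)
    + MvPolynomial.X (1, 1) * MvPolynomial.X (2, 2) - MvPolynomial.X (1, 2) * MvPolynomial.X (2, 1)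

noncomputable def detP (K : Type) [Field K] : MvPolynomial (Fin 3 × Fin 3) K :=
  Matrix.det (Matrix.of (fun i j : Fin 3 => (MvPolynomial.X (i, j) : MvPolynomial (Fin 3 × Fin 3) K)))

theorem eval_trP {K : Type} [Field K] (B : M3 K) :
    MvPolynomial.eval (fun ij => B ij.1 ij.2) (trP K) = B.trace := by
  simp [trP, Matrix.trace_fin_three]

theorem eval_c2P {K : Type} [Field K] (B : M3 K) :
    MvPolynomial.eval (fun ij => B ij.1 ij.2) (c2P K) = c2 B := by
  simp [c2P, c2]

theorem eval_detP {K : Type} [Field K] (B : M3 K) :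
    MvPolynomial.eval (fun ij => B ij.1 ij.2) (detP K) = B.det := by
  simp [detP, Matrix.det_fin_three]

theorem eval_F2 {K : Type} [Field K] (B : M3 K) :
    MvPolynomial.eval (fun ij => B ij.1 ij.2) (trP K ^ 2 - 4 * c2P K) =
      B.trace ^ 2 - 4 * c2 B := by
  have e : MvPolynomial.eval (fun ij : Fin 3 × Fin 3 => B ij.1 ij.2)
    (4 : MvPolynomial (Fin 3 × Fin 3) K) = 4 := map_ofNat _ _
  rw [map_sub, map_mul, map_pow, eval_trP, eval_c2P, e]

theorem eval_F3 {K : Type} [Field K] (B : M3 K) :
    MvPolynomial.eval (fun ij => B ij.1 ij.2) (trP K ^ 3 - 27 * detP K) =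
      B.trace ^ 3 - 27 * B.det := by
  have e : MvPolynomial.eval (fun ij : Fin 3 × Fin 3 => B ij.1 ij.2)
    (27 : MvPolynomial (Fin 3 × Fin 3) K) = 27 := map_ofNat _ _
  rw [map_sub, map_mul, map_pow, eval_trP, eval_detP, e]

theorem subset_closure {K : Type} [Field K] (S : Set (M3 K)) : S ⊆ zariskiClosure S :=
  fun _ hB _ hf => hf _ hB

/-- On the closure of `V3 + K` one has `tr ^ 2 = 3 c2`. -/
theorem V3K_closure {K : Type} [Field K] {B : M3 K} (h : B ∈ zariskiClosure (V3K K)) :
    B.trace ^ 2 - 3 * c2 B = 0 := by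
  have h1 := h ((trP K) ^ 2 - 3 * c2P K) (by
    rintro _ ⟨A, hA, c, rfl⟩
    obtain ⟨h1, h2⟩ := V3_trace hA
    rw [map_sub, map_mul, map_pow, eval_trP, eval_c2P]
    rw [Matrix.trace_fin_three] at h1
    rw [Matrix.trace_fin_three]
    unfold c2 at h2 ⊢
    simp
    linear_combination (A 0 0 + A 1 1 + A 2 2) * h1 - 3 * h2)
  rw [map_sub, map_mul, map_pow, eval_trP, eval_c2P] at h1
  simpa using h1

/-- A closure containing a matrix with nonzero trace and `tr ^ 2 ≠ 3 c2`, and contained in a
proper subset, is none of the six sets. -/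
theorem not_six {K : Type} [Field K] (S : Set (M3 K)) (P Q : M3 K) (hP : P ∈ S)
    (htr : P.trace ≠ 0) (hG : P.trace ^ 2 - 3 * c2 P ≠ 0) (hQ : Q ∉ zariskiClosure S) :
    zariskiClosure S ≠ {0} ∧ zariskiClosure S ≠ scalars K ∧ zariskiClosure S ≠ V3 K ∧
      zariskiClosure S ≠ sl3 K ∧ zariskiClosure S ≠ zariskiClosure (V3K K) ∧
      zariskiClosure S ≠ Set.univ := by
  have hP' := subset_closure S hP
  refine ⟨?_, ?_, ?_, ?_, ?_, ?_⟩
  · intro h
    rw [h] at hP'
    rw [Set.mem_singleton_iff] at hP'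
    rw [hP'] at htr
    simp at htr
  · intro h
    rw [h] at hP'
    obtain ⟨c, hc⟩ := hP'
    apply hG
    rw [hc, Matrix.trace_fin_three, c2]
    simp
    ring
  · intro h
    rw [h] at hP'
    exact htr (V3_trace hP').1
  · intro h
    rw [h] at hP'
    exact htr hP'
  · intro h
    rw [h] at hP'
    exact hG (V3K_closure hP')
  · intro h
    rw [h] at hQ
    exact hQ (Set.mem_univ _)

theorem homog_var {K : Type} [Field K] {m : ℕ} (i : Fin m) : IsHomog 1 (FreeAlgebra.ι K i) :=
  Submodule.subset_span ⟨[i], by simp, by simp⟩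

theorem homog_mul {K : Type} [Field K] {m d e : ℕ} {p q : FreeAlgebra K (Fin m)}
    (hp : IsHomog d p) (hq : IsHomog e q) : IsHomog (d + e) (p * q) := by
  have h := Submodule.mul_mem_mul hp hq
  rw [Submodule.span_mul_span] at h
  refine Submodule.span_mono ?_ h
  rintro _ ⟨_, ⟨l, hl, rfl⟩, _, ⟨l', hl', rfl⟩, rfl⟩
  exact ⟨l ++ l', by simp [hl, hl'], by simp⟩

theorem homog_sub {K : Type} [Field K] {m d : ℕ} {p q : FreeAlgebra K (Fin m)}
    (hp : IsHomog d p) (hq : IsHomog d q) : IsHomog d (p - q) :=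
  Submodule.sub_mem _ hp hq

/-- The commutator of the two variables. -/
noncomputable def comm (K : Type) [Field K] : FreeAlgebra K (Fin 2) :=
  FreeAlgebra.ι K 0 * FreeAlgebra.ι K 1 - FreeAlgebra.ι K 1 * FreeAlgebra.ι K 0

theorem homog_comm (K : Type) [Field K] : IsHomog (1 + 1) (comm K) := by
  unfold comm
  have h1 : IsHomog (1 + 1) (FreeAlgebra.ι K (0 : Fin 2) * FreeAlgebra.ι K 1) :=
    homog_mul (homog_var 0) (homog_var 1)
  have h2 : IsHomog (1 + 1) (FreeAlgebra.ι K (1 : Fin 2) * FreeAlgebra.ι K 0) :=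
    homog_mul (homog_var 1) (homog_var 0)
  exact homog_sub h1 h2

def X0 (K : Type) [Field K] : M3 K := !![0, 1, 0; 1, 0, 0; 0, 0, 0]
def Y0 (K : Type) [Field K] : M3 K := !![1, 0, 0; 0, 0, 1; 1, 0, 0]
def C0 (K : Type) [Field K] : M3 K := !![0, -1, 1; 1, 0, 0; 0, -1, 0]

theorem comm0 (K : Type) [Field K] : X0 K * Y0 K - Y0 K * X0 K = C0 K := by
  ext i j
  fin_cases i <;> fin_cases j <;> simp [X0, Y0, C0]

theorem trace_comm {K : Type} [Field K] (x y : M3 K) : (x * y - y * x).trace = 0 := by
  rw [Matrix.trace_sub, Matrix.trace_mul_comm, sub_self]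

theorem sq_rel {K : Type} [Field K] (C : M3 K) (h : C.trace = 0) :
    (C * C).trace ^ 2 - 4 * c2 (C * C) = 0 := by
  rw [Matrix.trace_fin_three] at h
  have h' : C 2 2 = -C 0 0 - C 1 1 := by linear_combination h
  rw [Matrix.trace_fin_three, c2]
  simp only [Matrix.mul_apply, Fin.sum_univ_three, h']
  ring

theorem cube_rel {K : Type} [Field K] (C : M3 K) (h : C.trace = 0) :
    (C * C * C).trace = 3 * C.det := by
  rw [Matrix.trace_fin_three] at h
  have h' : C 2 2 = -C 0 0 - C 1 1 := by linear_combination h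
  rw [Matrix.trace_fin_three, Matrix.det_fin_three]
  simp only [Matrix.mul_apply, Fin.sum_univ_three, h']
  ring

/-- The matrix unit `E₁₁`. -/
def E11 (K : Type) [Field K] : M3 K := !![1, 0, 0; 0, 0, 0; 0, 0, 0]

/-- **Disproof of the six-closures conjecture**, over every algebraically closed field `K`:
some homogeneous noncommutative polynomial `p` of positive degree has an image on `M_3(K)` whose
Zariski closure is none of `{0}`, `K`, `V_3(K)`, `sl_3(K)`, the closure of `V_3 + K`, and
`M_3(K)`. -/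
theorem result (K : Type) [Field K] [IsAlgClosed K] :
    ∃ (m d : ℕ) (p : FreeAlgebra K (Fin m)), 1 ≤ d ∧ IsHomog d p ∧
      zariskiClosure (image p) ≠ {0} ∧
      zariskiClosure (image p) ≠ scalars K ∧
      zariskiClosure (image p) ≠ V3 K ∧
      zariskiClosure (image p) ≠ sl3 K ∧
      zariskiClosure (image p) ≠ zariskiClosure (V3K K) ∧
      zariskiClosure (image p) ≠ Set.univ := by
  have hlift : ∀ A : Fin 2 → M3 K, FreeAlgebra.lift K A (comm K) = A 0 * A 1 - A 1 * A 0 := by
    intro A
    simp [comm]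
  have hC0 : FreeAlgebra.lift K ![X0 K, Y0 K] (comm K) = C0 K := by
    rw [hlift]; exact comm0 K
  by_cases h2 : (2 : K) = 0
  · -- characteristic two: the cube of the commutator
    refine ⟨2, 1 + 1 + (1 + 1) + (1 + 1), comm K * comm K * comm K, by norm_num,
      homog_mul (homog_mul (homog_comm K) (homog_comm K)) (homog_comm K),
      not_six _ (C0 K * C0 K * C0 K) (E11 K) ⟨![X0 K, Y0 K], by rw [map_mul, map_mul, hC0]⟩
        ?_ ?_ ?_⟩
    · have : (C0 K * C0 K * C0 K).trace = -3 := by
        simp [C0, Matrix.trace_fin_three]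
        ring
      rw [this]
      intro h3
      have : (1 : K) = 0 := by linear_combination -h3 - h2
      exact one_ne_zero this
    · have : (C0 K * C0 K * C0 K).trace ^ 2 - 3 * c2 (C0 K * C0 K * C0 K) = -3 := by
        simp [C0, Matrix.trace_fin_three, c2]
        ring
      rw [this]
      intro h3
      have : (1 : K) = 0 := by linear_combination -h3 - h2
      exact one_ne_zero this
    · intro hcl
      have h := hcl (trP K ^ 3 - 27 * detP K) (by
        rintro _ ⟨A, rfl⟩
        rw [eval_F3, map_mul, map_mul, hlift,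
          cube_rel _ (trace_comm _ _), Matrix.det_mul, Matrix.det_mul]
        ring)
      rw [eval_F3] at h
      simp [E11, Matrix.trace_fin_three, Matrix.det_fin_three] at h
  · -- the square of the commutator
    refine ⟨2, 1 + 1 + (1 + 1), comm K * comm K, by norm_num,
      homog_mul (homog_comm K) (homog_comm K),
      not_six _ (C0 K * C0 K) (E11 K) ⟨![X0 K, Y0 K], by rw [map_mul, hC0]⟩
        ?_ ?_ ?_⟩
    · have : (C0 K * C0 K).trace = -2 := by
        simp [C0, Matrix.trace_fin_three]
        ring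
      rw [this]
      intro h3
      exact h2 (by linear_combination -h3)
    · have : (C0 K * C0 K).trace ^ 2 - 3 * c2 (C0 K * C0 K) = 1 := by
        simp [C0, Matrix.trace_fin_three, c2]
        ring
      rw [this]
      exact one_ne_zero
    · intro hcl
      have h := hcl (trP K ^ 2 - 4 * c2P K) (by
        rintro _ ⟨A, rfl⟩
        rw [eval_F2, map_mul, hlift, sq_rel _ (trace_comm _ _)])
      rw [eval_F2] at h
      simp [E11, Matrix.trace_fin_three, c2] at h

end Pool.Agent.Results.MP_1a49c3_al.SixClosuresFalse
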